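import Pool.Agent.H43.TC.Targets2

set_option autoImplicit false

namespace Pool.Agent.H40.TE

open Pool.Agent.H43.TC

theorem run : T_RUN := by
  classical
  intro G _ _ g c
  have htr : ∀ b, (Finset.univ.filter (fun x => c (x + g) = b)).card =
      (Finset.univ.filter (fun x => c x = b)).card := by
    intro b
    rw [Finset.card_filter, Finset.card_filter]
    exact Equiv.sum_comp (Equiv.addRight g) (fun y => if c y = b then 1 else 0)
  have hjp : ∀ b, jp g c b + (Finset.univ.filter (fun x => c x = b ∧ c (x + g) = b)).card =
      (Finset.univ.filter (fun x => c x = b)).card := by
    intro b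
    unfold jp
    rw [← Finset.card_union_of_disjoint]
    · congr 1
      ext x
      simp only [Finset.mem_union, Finset.mem_filter, Finset.mem_univ, true_and]
      tauto
    · rw [Finset.disjoint_left]
      intro x
      simp only [Finset.mem_filter, Finset.mem_univ, true_and]
      tauto
  have hjp' : jp g c false + (Finset.univ.filter (fun x => c x = true ∧ c (x + g) = true)).card =
      (Finset.univ.filter (fun x => c (x + g) = true)).card := by
    unfold jp
    rw [← Finset.card_union_of_disjoint]
    · congr 1
      ext x
      simp only [Finset.mem_union, Finset.mem_filter, Finset.mem_univ, true_and]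
      cases c x <;> cases c (x + g) <;> simp
    · rw [Finset.disjoint_left]
      intro x
      simp only [Finset.mem_filter, Finset.mem_univ, true_and]
      cases c x <;> cases c (x + g) <;> simp
  have hwd0 : ∀ b, wd g c b 0 = (Finset.univ.filter (fun x => c x = b)).card := by
    intro b
    unfold wd
    congr 1
    ext x
    simp
  have hwd1 : ∀ b, wd g c b 1 =
      (Finset.univ.filter (fun x => c x = b ∧ c (x + g) = b)).card := by
    intro b
    unfold wd
    congr 1
    ext x
    simp only [Finset.mem_filter, Finset.mem_univ, true_and]
    constructor
    · intro h
      have h0 := h 0 (by omega)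
      have h1 := h 1 (by omega)
      simp only [zero_smul, add_zero, one_smul] at h0 h1
      exact ⟨h0, h1⟩
    · rintro ⟨h0, h1⟩ j hj
      have : j = 0 ∨ j = 1 := by omega
      rcases this with rfl | rfl
      · simpa using h0
      · simpa using h1
  refine ⟨?_, ?_⟩
  · have h1 := hjp true
    have h2 := htr true
    omega
  · intro b
    refine ⟨hwd0 b, ?_⟩
    have hstep : ∀ D, wd g c b D ≤ wd g c b (D + 1) + jp g c b := by
      intro D
      have hinj : (Finset.univ.filter (fun x => (∀ j, j < D + 1 → c (x + j • g) = b) ∧
          c (x + (D + 1) • g) ≠ b)).card ≤ jp g c b := by
        unfold jp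
        apply Finset.card_le_card_of_injOn (fun x => x + D • g)
        · intro x hx
          simp only [Finset.coe_filter, Finset.mem_univ, true_and, Set.mem_ofPred_eq] at hx ⊢
          refine ⟨hx.1 D (by omega), ?_⟩
          have h3 : x + D • g + g = x + (D + 1) • g := by
            rw [add_smul, one_smul, add_assoc]
          rw [h3]
          exact hx.2
        · intro x _ y _ hxy
          exact add_right_cancel hxy
      have hle : wd g c b D ≤ wd g c b (D + 1) +
          (Finset.univ.filter (fun x => (∀ j, j < D + 1 → c (x + j • g) = b) ∧
          c (x + (D + 1) • g) ≠ b)).card := by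
        unfold wd
        refine le_trans (Finset.card_le_card ?_) (Finset.card_union_le _ _)
        intro x
        simp only [Finset.mem_union, Finset.mem_filter, Finset.mem_univ, true_and]
        intro hx
        by_cases hc : c (x + (D + 1) • g) = b
        · left
          intro j hj
          rcases Nat.lt_or_ge j (D + 1) with h | h
          · exact hx j h
          · have : j = D + 1 := by omega
            rw [this]; exact hc
        · right
          exact ⟨hx, hc⟩
      omega
    have hmono : ∀ D, 1 ≤ D → wd g c b D ≤ wd g c b 1 := by
      intro D hD
      unfold wd
      apply Finset.card_le_card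
      intro x
      simp only [Finset.mem_filter, Finset.mem_univ, true_and]
      intro hx j hj
      exact hx j (by omega)
    intro D
    constructor
    · induction D with
      | zero => simp
      | succ D ih =>
        have := hstep D
        have h5 : (D + 1) * jp g c b = D * jp g c b + jp g c b := by ring
        omega
    · intro hD
      have h1 := hmono D hD
      have h2 := hjp b
      have h3 := hwd0 b
      have h4 := hwd1 b
      omega

end Pool.Agent.H40.TE
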