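import Pool.Agent.H43.TC.Targets2

set_option autoImplicit false

namespace Pool.Agent.H40.TE

open Pool.Agent.H43.TC

lemma sum_list_comm {α ι : Type} (s : Finset ι) (L : List α) (f : ι → α → ℕ) :
    ∑ x ∈ s, (L.map (f x)).sum = (L.map (fun p => ∑ x ∈ s, f x p)).sum := by
  induction L with
  | nil => simp
  | cons a L ih => simp [Finset.sum_add_distrib, ih]

theorem wdt (hWEX : T_WEX) : T_WDT := by
  intro G _ _ g c b t
  have h1 : ∑ x, walks (fun _ : Fin 1 => g) c b t x =
      ∑ x : G, ((ex t).map (fun p : ℕ × ℕ =>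
        if ∀ j, j < p.1 + p.2 + 1 → c (x - p.1 • g + j • g) = b then 1 else 0)).sum :=
    Finset.sum_congr rfl (fun x _ => hWEX G g c b t x)
  rw [h1, sum_list_comm]
  apply congrArg
  apply List.map_congr_left
  intro p _
  unfold wd
  rw [Finset.card_filter]
  exact Equiv.sum_comp (Equiv.subRight (p.1 • g))
    (fun y => if ∀ j, j < p.1 + p.2 + 1 → c (y + j • g) = b then 1 else 0)

theorem pwx (hWEX : T_WEX) : T_PWX := by
  intro m t
  unfold pathWalks
  have h1 : ∑ z ∈ Finset.range m, walks (fun _ : Fin 1 => (1 : ℤ))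
      (fun z => decide (0 ≤ z ∧ z < m)) true t (z : ℤ) =
      ∑ z ∈ Finset.range m, ((ex t).map (fun p : ℕ × ℕ =>
        if ∀ j, j < p.1 + p.2 + 1 →
          (fun z : ℤ => decide (0 ≤ z ∧ z < m)) ((z : ℤ) - p.1 • (1 : ℤ) + j • (1 : ℤ)) = true
          then 1 else 0)).sum :=
    Finset.sum_congr rfl (fun z _ => hWEX ℤ 1 _ true t (z : ℤ))
  rw [h1, sum_list_comm]
  apply congrArg
  apply List.map_congr_left
  intro p _
  rw [← Finset.card_filter]
  have h2 : (Finset.range m).filter (fun z : ℕ => ∀ j, j < p.1 + p.2 + 1 →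
      (fun z : ℤ => decide (0 ≤ z ∧ z < m)) ((z : ℤ) - p.1 • (1 : ℤ) + j • (1 : ℤ)) = true) =
      Finset.Ico p.1 (m - p.2) := by
    ext z
    simp only [Finset.mem_filter, Finset.mem_range, Finset.mem_Ico, decide_eq_true_eq,
      nsmul_eq_mul, mul_one]
    constructor
    · rintro ⟨hz, h⟩
      have h0 := h 0 (by omega)
      have h3 := h (p.1 + p.2) (by omega)
      push_cast at h0 h3
      omega
    · rintro ⟨hz1, hz2⟩
      refine ⟨by omega, fun j hj => ?_⟩
      omega
  rw [h2, Nat.card_Ico]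
  omega

end Pool.Agent.H40.TE
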